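import Pool.Agent.Nrd.Stm

/-!
# Nordgren's question for symbols which are finite-to-one on a boundary set (MP_cca8cd_an)

Let `φ` be bounded analytic on the unit disc with boundary function `bd`, and let `E` be a set of boundary points which is
not a null set such that `bd` is finite-to-one over `bd(E)`. If multiplication by `φ` on `H²` (as `ℓ²`) has a nontrivial
closed reducing subspace, then `φ = ψ ∘ B` with `ψ` bounded analytic and `B` a finite Blaschke product of degree at least `2`.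
-/

set_option autoImplicit false

open MeasureTheory Filter Topology

namespace Pool.Agent.Results.MP_cca8cd_an.FiniteToOne

theorem result (φ : ℂ → ℂ) (hφ : Nrd.Hinf φ) (bd : ℝ → ℂ) (hbd : Nrd.IsBdry φ bd)
    (E : Set ℝ) (hE : E ⊆ Set.Ico 0 (2 * Real.pi)) (hE0 : volume E ≠ 0)
    (hfin : ∀ θ ∈ E, {t : ℝ | t ∈ Set.Ico 0 (2 * Real.pi) ∧ bd t = bd θ}.Finite)
    (M : Set (ℕ → ℂ)) (hM : Nrd.Reduces φ M) :
    ∃ n : ℕ, 2 ≤ n ∧ ∃ a : Fin n → ℂ, (∀ i, ‖a i‖ < 1) ∧ ∃ ψ : ℂ → ℂ, Nrd.Hinf ψ ∧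
      ∀ z ∈ Nrd.D, φ z = ψ (∏ i, (z - a i) / (1 - (starRingEnd ℂ) (a i) * z)) := by
  obtain ⟨hφ, C, hC⟩ := hφ
  obtain ⟨N, hcl, h1, h2, hbot, htop⟩ := Nrd.reduces_sub φ M hM
  obtain ⟨n, hn, a, ha, ψ, hψ, hψC, h⟩ := Nrd.main φ hφ C hC bd hbd E hE hE0 hfin N hcl h1 h2 hbot htop
  exact ⟨n, hn, a, ha, ψ, ⟨hψ, C, hψC⟩, h⟩

end Pool.Agent.Results.MP_cca8cd_an.FiniteToOne
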